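import Pool.Agent.NL.StmtsA

/-! NLO, row ALO: merging the children into the leaf. -/

set_option autoImplicit false

open MeasureTheory Filter Topology

noncomputable section

namespace Pool.Agent.NL.H86

/-- evaluation of a combination -/
theorem ev_map (G : ℝ → Z) (q : ℝ →₀ ℝ) (g : ℝ → ℝ) (k : ℕ) :
    (V G (Finsupp.mapDomain g q)) k = ∑ r ∈ q.support, q r * (G (g r)) k := by
  unfold V
  rw [Finsupp.linearCombination_mapDomain, Finsupp.linearCombination_apply, Finsupp.sum,
    BoundedContinuousFunction.sum_apply]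
  rfl

theorem ev_V (G : ℝ → Z) (q : ℝ →₀ ℝ) (k : ℕ) :
    (V G q) k = ∑ r ∈ q.support, q r * (G r) k := by
  have h := ev_map G q id k
  rwa [Finsupp.mapDomain_id] at h

theorem bo_supp {n u : ℕ} {c : ℕ → ℝ} {q : ℕ → ℝ →₀ ℝ} {W : Finset ℝ}
    (h : ∀ i, i < n → (q i).support ⊆ W) : (bo n u c q).support ⊆ W := by
  classical
  intro x hx
  unfold bo at hx
  obtain ⟨i, hi, hxi⟩ := Finset.mem_biUnion.1 (Finsupp.support_finsetSum hx)
  have hi' : i < n := Finset.mem_range.1 (Finset.mem_of_mem_erase hi)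
  exact h i hi' (Finsupp.support_smul hxi)

/-- ALO -/
theorem alo : AloStmt := by
  classical
  intro X _ _ f F G Ψ a ε n u q W E N ϖ J φ T y hS τ hτ0 hτ1 c c' z hz
  obtain ⟨A, hA⟩ : ∃ A, A = ∑ i ∈ Finset.range N, c' i := ⟨_, rfl⟩
  rw [← hA]
  have hε := hS.e0
  have hsub := hS.cfg.sub
  have hb : (bo n u c q + A • q u).support ⊆ W := by
    intro x hx
    rcases Finset.mem_union.1 (Finsupp.support_add hx) with h | h
    · exact bo_supp hsub h
    · exact hsub u hS.hu (Finsupp.support_smul h)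
  obtain ⟨k, hk1, hk2⟩ := hS.mv.lo0 _ hb z hz
  have hpb := hS.cfg.pb u hS.hu
  have hsum : ∑ r ∈ (q u).support, q u r = 1 := hpb.2
  -- one child
  have hlam : ∀ i, i < N → |(V G (lam (q u) J φ τ i)) k - (V G (q u)) k| ≤ ε := by
    intro i hi
    have h1 : (V G (lam (q u) J φ τ i)) k = (1 - τ) * (V G (gq (q u) φ i)) k +
        τ * (V G (hq (q u) J φ i)) k := by
      unfold lam
      rw [map_add, map_smul, map_smul]
      rfl
    have h2 : (V G (lam (q u) J φ τ i)) k - (V G (q u)) k = ∑ r ∈ (q u).support,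
        q u r * ((1 - τ) * ((G (φ i r)) k - (G r) k) + τ * ((G (φ i (J i r))) k - (G r) k)) := by
      rw [h1]
      unfold gq hq
      rw [ev_map, ev_map, ev_V, Finset.mul_sum, Finset.mul_sum, ← Finset.sum_add_distrib,
        ← Finset.sum_sub_distrib]
      refine Finset.sum_congr rfl fun r _ => ?_
      ring
    rw [h2]
    refine (Finset.abs_sum_le_sum_abs _ _).trans ?_
    have h3 : ∀ r ∈ (q u).support, |q u r * ((1 - τ) * ((G (φ i r)) k - (G r) k) +
        τ * ((G (φ i (J i r))) k - (G r) k))| ≤ q u r * ε := by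
      intro r hr
      rw [abs_mul, abs_of_nonneg (hpb.1 r)]
      refine mul_le_mul_of_nonneg_left ?_ (hpb.1 r)
      refine (abs_add_le _ _).trans ?_
      rw [abs_mul, abs_mul, abs_of_nonneg hτ0, abs_of_nonneg (by linarith : 0 ≤ 1 - τ)]
      obtain ⟨h4, h5⟩ := hk2 i hi r hr
      nlinarith [mul_le_mul_of_nonneg_left h4 (by linarith : 0 ≤ 1 - τ),
        mul_le_mul_of_nonneg_left h5 hτ0]
    refine (Finset.sum_le_sum h3).trans ?_
    rw [← Finset.sum_mul, hsum, one_mul]
  -- the two vectors at the coordinate `k`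
  have hdiff : (V G (bo n u c q + A • q u) - Ψ z) k =
      (V G (bo n u c q + ∑ i ∈ Finset.range N, c' i • lam (q u) J φ τ i) - Ψ z) k -
        ∑ i ∈ Finset.range N, c' i * ((V G (lam (q u) J φ τ i)) k - (V G (q u)) k) := by
    have h1 : (V G (bo n u c q + A • q u) - Ψ z) k =
        (V G (bo n u c q)) k + A * (V G (q u)) k - (Ψ z) k := by
      rw [map_add, map_smul]
      rfl
    have h2 : (V G (bo n u c q + ∑ i ∈ Finset.range N, c' i • lam (q u) J φ τ i) - Ψ z) k =
        (V G (bo n u c q)) k + ∑ i ∈ Finset.range N, c' i * (V G (lam (q u) J φ τ i)) k -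
          (Ψ z) k := by
      rw [map_add, map_sum]
      have h3 : (∑ i ∈ Finset.range N, V G (c' i • lam (q u) J φ τ i)) k =
          ∑ i ∈ Finset.range N, c' i * (V G (lam (q u) J φ τ i)) k := by
        rw [BoundedContinuousFunction.sum_apply]
        refine Finset.sum_congr rfl fun i _ => ?_
        rw [map_smul]
        rfl
      rw [← h3]
      rfl
    rw [h1, h2, hA, Finset.sum_mul]
    have h4 : ∑ i ∈ Finset.range N, c' i * ((V G (lam (q u) J φ τ i)) k - (V G (q u)) k) =
        ∑ i ∈ Finset.range N, c' i * (V G (lam (q u) J φ τ i)) k -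
          ∑ i ∈ Finset.range N, c' i * (V G (q u)) k := by
      rw [← Finset.sum_sub_distrib]
      refine Finset.sum_congr rfl fun i _ => ?_
      ring
    rw [h4]
    ring
  refine hk1.trans (mul_le_mul_of_nonneg_left ?_ (by linarith))
  rw [hdiff]
  have h1 : |(V G (bo n u c q + ∑ i ∈ Finset.range N, c' i • lam (q u) J φ τ i) - Ψ z) k| ≤
      ‖V G (bo n u c q + ∑ i ∈ Finset.range N, c' i • lam (q u) J φ τ i) - Ψ z‖ := by
    rw [← Real.norm_eq_abs]
    exact BoundedContinuousFunction.norm_coe_le_norm _ k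
  have h2 : |∑ i ∈ Finset.range N, c' i * ((V G (lam (q u) J φ τ i)) k - (V G (q u)) k)| ≤
      ε * ∑ i ∈ Finset.range N, |c' i| := by
    refine (Finset.abs_sum_le_sum_abs _ _).trans ?_
    rw [Finset.mul_sum]
    refine Finset.sum_le_sum fun i hi => ?_
    rw [abs_mul, mul_comm]
    exact mul_le_mul_of_nonneg_right (hlam i (Finset.mem_range.1 hi)) (abs_nonneg _)
  calc |(V G (bo n u c q + ∑ i ∈ Finset.range N, c' i • lam (q u) J φ τ i) - Ψ z) k -
        ∑ i ∈ Finset.range N, c' i * ((V G (lam (q u) J φ τ i)) k - (V G (q u)) k)|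
      ≤ |(V G (bo n u c q + ∑ i ∈ Finset.range N, c' i • lam (q u) J φ τ i) - Ψ z) k| +
        |∑ i ∈ Finset.range N, c' i * ((V G (lam (q u) J φ τ i)) k - (V G (q u)) k)| :=
          abs_sub _ _
    _ ≤ _ := add_le_add h1 h2

end Pool.Agent.NL.H86
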