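import Pool.Agent.NL.StmtsM

/-! NLO, row STQ: the new points. -/

set_option autoImplicit false

open MeasureTheory Filter Topology Set

noncomputable section

namespace Pool.Agent.NL.H86

/-- pointwise convergence of norms is uniform on finite dimensional spaces -/
theorem unif {P Q : Type} [NormedAddCommGroup P] [NormedSpace ℝ P] [FiniteDimensional ℝ P]
    [NormedAddCommGroup Q] [NormedSpace ℝ Q]
    (Λ : P →L[ℝ] Q) (μ : P →L[ℝ] ℝ) (D : ℝ → Q) (hD : ∀ x, ‖D x‖ ≤ 2) (l : Filter ℝ)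
    (h : ∀ p, Tendsto (fun x => ‖Λ p + μ p • D x‖) l (𝓝 ‖Λ p‖)) (η : ℝ) (hη : 0 < η) :
    ∀ᶠ x in l, ∀ p, ‖Λ p + μ p • D x‖ ≤ ‖Λ p‖ + η * ‖p‖ := by
  have hΛ0 : 0 ≤ ‖Λ‖ := ContinuousLinearMap.opNorm_nonneg Λ
  have hμ0 : 0 ≤ ‖μ‖ := norm_nonneg _
  obtain ⟨C, hC⟩ : ∃ C, C = 2 * ‖Λ‖ + 2 * ‖μ‖ + 1 := ⟨_, rfl⟩
  have hC0 : 0 < C := by rw [hC]; positivity
  have hr : 0 < η / (2 * C) := by positivity
  have hK : IsCompact (Metric.sphere (0 : P) 1) := by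
    have : ProperSpace P := FiniteDimensional.proper ℝ P
    exact isCompact_sphere 0 1
  obtain ⟨t, -, ht, hcov⟩ := hK.finite_cover_balls hr
  have h1 : ∀ᶠ x in l, ∀ q ∈ t, ‖Λ q + μ q • D x‖ ≤ ‖Λ q‖ + η / 2 := by
    rw [eventually_all_finite ht]
    intro q _
    have h2 : ‖Λ q‖ < ‖Λ q‖ + η / 2 := by linarith
    exact ((h q).eventually (gt_mem_nhds h2)).mono fun x hx => hx.le
  refine h1.mono fun x hx p => ?_
  by_cases hp : p = 0
  · rw [hp]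
    simp
  have hp0 : 0 < ‖p‖ := norm_pos_iff.2 hp
  obtain ⟨u, hu⟩ : ∃ u, u = ‖p‖⁻¹ • p := ⟨_, rfl⟩
  have hu1 : ‖u‖ = 1 := by
    rw [hu, norm_smul, norm_inv, norm_norm, inv_mul_cancel₀ hp0.ne']
  have hpu : p = ‖p‖ • u := by
    rw [hu, smul_smul, mul_inv_cancel₀ hp0.ne', one_smul]
  have hmem : u ∈ Metric.sphere (0 : P) 1 := by
    rw [mem_sphere_zero_iff_norm]
    exact hu1
  obtain ⟨q, hq, hq'⟩ := Set.mem_iUnion₂.1 (hcov hmem)
  have hd : ‖u - q‖ < η / (2 * C) := by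
    rw [Metric.mem_ball, dist_eq_norm] at hq'
    exact hq'
  have e1 : ‖Λ u + μ u • D x‖ ≤ ‖Λ q + μ q • D x‖ + (‖Λ‖ + 2 * ‖μ‖) * ‖u - q‖ := by
    have e2 : Λ u + μ u • D x = (Λ q + μ q • D x) + (Λ (u - q) + μ (u - q) • D x) := by
      have e3 : (μ u - μ q) • D x = μ u • D x - μ q • D x := sub_smul _ _ _
      rw [map_sub, map_sub, e3]
      abel
    rw [e2]
    refine (norm_add_le _ _).trans ?_
    refine add_le_add le_rfl ((norm_add_le _ _).trans ?_)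
    rw [norm_smul]
    have e3 : ‖Λ (u - q)‖ ≤ ‖Λ‖ * ‖u - q‖ := Λ.le_opNorm _
    have e4 : ‖μ (u - q)‖ * ‖D x‖ ≤ (‖μ‖ * ‖u - q‖) * 2 :=
      mul_le_mul (μ.le_opNorm _) (hD x) (norm_nonneg _) (by positivity)
    linarith
  have e5 : ‖Λ q‖ ≤ ‖Λ u‖ + ‖Λ‖ * ‖u - q‖ := by
    have e6 : Λ q = Λ u - Λ (u - q) := by
      rw [map_sub]
      abel
    rw [e6]
    refine (norm_sub_le _ _).trans ?_
    exact add_le_add le_rfl (Λ.le_opNorm _)
  have e7 : (2 * ‖Λ‖ + 2 * ‖μ‖) * ‖u - q‖ ≤ η / 2 := by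
    calc (2 * ‖Λ‖ + 2 * ‖μ‖) * ‖u - q‖ ≤ C * (η / (2 * C)) := by
          refine mul_le_mul ?_ hd.le (norm_nonneg _) hC0.le
          rw [hC]
          linarith
      _ = η / 2 := by field_simp
  have e8 : ‖Λ u + μ u • D x‖ ≤ ‖Λ u‖ + η := by
    have := hx q hq
    linarith
  have e9 : ‖Λ p + μ p • D x‖ = ‖p‖ * ‖Λ u + μ u • D x‖ := by
    conv_lhs => rw [hpu]
    rw [map_smul, map_smul, smul_assoc, ← smul_add, norm_smul, norm_norm]
  have e10 : ‖Λ p‖ = ‖p‖ * ‖Λ u‖ := by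
    conv_lhs => rw [hpu]
    rw [map_smul, norm_smul, norm_norm]
  rw [e9, e10]
  calc ‖p‖ * ‖Λ u + μ u • D x‖ ≤ ‖p‖ * (‖Λ u‖ + η) := mul_le_mul_of_nonneg_left e8 hp0.le
    _ = ‖p‖ * ‖Λ u‖ + η * ‖p‖ := by ring

/-- STQ -/
theorem stq (hdnb : DnbStmt) (hgnd : GndStmt) : StqStmt := by
  classical
  intro X _ _ f F G Ψ hC W hW s hs Φ E _ η hη
  obtain ⟨hgood, hae⟩ := hgnd X G Ψ W hW
  have h1 : ∀ᶠ x in dens s, x ∉ W := by
    refine hdnb.2 (fun x => x ∉ W) ?_ s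
    exact (W.countable_toSet.ae_notMem volume).mono fun x hx h => hx (Finset.mem_coe.2 h)
  have h2 : ∀ᶠ x in dens s, Gn G Ψ (insert x W) := by
    refine hdnb.2 (fun x => Gn G Ψ (insert x W)) ?_ s
    exact hae
  have h3 : ∀ᶠ x in dens s, ∀ k ∈ Φ, |G x k - G s k| ≤ η := by
    rw [Filter.eventually_all_finset]
    intro k _
    have h4 := Metric.tendsto_nhds.1 (hgood.1 s hs k) η hη
    exact h4.mono fun x hx => by
      rw [Real.dist_eq] at hx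
      exact hx.le
  -- the finite dimensional space
  obtain ⟨L1, hL1⟩ : ∃ L1 : (W → ℝ) →ₗ[ℝ] Z, ∀ c, L1 c = ∑ w, c w • G (w : ℝ) :=
    ⟨Fintype.linearCombination ℝ (fun w : W => G (w : ℝ)), fun c =>
      Fintype.linearCombination_apply _ _ _⟩
  obtain ⟨Λ, hΛ⟩ : ∃ Λ : ((W → ℝ) × E) →ₗ[ℝ] Z, ∀ p, Λ p = ∑ w, p.1 w • G (w : ℝ) -
      Ψ (p.2 : X) := by
    refine ⟨L1.comp (LinearMap.fst ℝ _ _) -
      (Ψ.toLinearMap.comp E.subtype).comp (LinearMap.snd ℝ _ _), fun p => ?_⟩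
    rw [LinearMap.sub_apply, LinearMap.comp_apply, LinearMap.fst_apply, hL1]
    rfl
  obtain ⟨μ, hμ⟩ : ∃ μ : ((W → ℝ) × E) →ₗ[ℝ] ℝ, ∀ p, μ p = p.1 ⟨s, hs⟩ :=
    ⟨(LinearMap.proj (⟨s, hs⟩ : W)).comp (LinearMap.fst ℝ _ _), fun p => rfl⟩
  have hD : ∀ x, ‖G x - G s‖ ≤ 2 := by
    intro x
    refine (norm_sub_le _ _).trans ?_
    have := hC.bdd x
    have := hC.bdd s
    linarith
  have hV : ∀ (b : ℝ →₀ ℝ), b.support ⊆ W → V G b = ∑ w : W, b (w : ℝ) • G (w : ℝ) := by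
    intro b hb
    unfold V
    rw [Finsupp.linearCombination_apply, Finsupp.sum_of_support_subset b hb _ (by simp)]
    rw [← Finset.sum_coe_sort W]
  have hlim : ∀ p : (W → ℝ) × E, Tendsto (fun x => ‖Λ.toContinuousLinearMap p +
      μ.toContinuousLinearMap p • (G x - G s)‖) (dens s)
      (𝓝 ‖Λ.toContinuousLinearMap p‖) := by
    intro p
    obtain ⟨b, hb⟩ : ∃ b : ℝ →₀ ℝ, b = Finsupp.onFinset W
        (fun x => if h : x ∈ W then p.1 ⟨x, h⟩ else 0) (by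
          intro x hx
          by_contra h
          exact hx (dif_neg h)) := ⟨_, rfl⟩
    have hbs : b.support ⊆ W := by
      rw [hb]
      exact Finsupp.support_onFinset_subset
    have hbv : ∀ w : W, b (w : ℝ) = p.1 w := by
      intro w
      rw [hb, Finsupp.onFinset_apply, dif_pos w.2]
    have h4 := hgood.2 s hs b hbs (p.2 : X)
    have h5 : V G b - Ψ (p.2 : X) = Λ p := by
      rw [hV b hbs, hΛ]
      congr 1
      exact Finset.sum_congr rfl fun w _ => by rw [hbv]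
    have h6 : ∀ x, V G b + b s • (G x - G s) - Ψ (p.2 : X) = Λ p + μ p • (G x - G s) := by
      intro x
      rw [← h5, hμ, ← hbv ⟨s, hs⟩]
      abel
    simp only [h6] at h4
    rw [h5] at h4
    exact h4
  have h4 := unif (P := (W → ℝ) × E) Λ.toContinuousLinearMap μ.toContinuousLinearMap
    (fun x => G x - G s) hD (dens s) hlim η hη
  filter_upwards [h1, h2, h3, h4] with x hx1 hx2 hx3 hx4
  refine ⟨hx1, hx2, hx3, ?_⟩
  intro b hb y hy
  have h5 := hx4 (fun w : W => b (w : ℝ), ⟨y, hy⟩)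
  have h6 : Λ (fun w : W => b (w : ℝ), ⟨y, hy⟩) = V G b - Ψ y := by
    rw [hΛ, hV b hb]
  have h7 : μ (fun w : W => b (w : ℝ), ⟨y, hy⟩) = b s := by
    rw [hμ]
  change ‖Λ (fun w : W => b (w : ℝ), ⟨y, hy⟩) + μ (fun w : W => b (w : ℝ), ⟨y, hy⟩) •
    (G x - G s)‖ ≤ ‖Λ (fun w : W => b (w : ℝ), ⟨y, hy⟩)‖ + η * _ at h5
  rw [h6, h7] at h5
  have h8 : V G b + b s • (G x - G s) - Ψ y = V G b - Ψ y + b s • (G x - G s) := by abel
  rw [h8]
  refine h5.trans ?_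
  refine add_le_add le_rfl (mul_le_mul_of_nonneg_left ?_ hη.le)
  have hl : l1 b = ∑ w ∈ W, |b w| := by
    unfold l1
    exact Finsupp.sum_of_support_subset b hb _ (by simp)
  have hl0 : 0 ≤ l1 b := by
    rw [hl]
    exact Finset.sum_nonneg fun w _ => abs_nonneg _
  rw [Prod.norm_def]
  refine max_le ?_ ?_
  · refine (pi_norm_le_iff_of_nonneg (by positivity)).2 fun w => ?_
    rw [Real.norm_eq_abs]
    have : |b (w : ℝ)| ≤ l1 b := by
      rw [hl]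
      exact Finset.single_le_sum (f := fun w => |b w|) (fun w _ => abs_nonneg _) w.2
    have := norm_nonneg y
    linarith
  · change ‖y‖ ≤ _
    linarith

end Pool.Agent.NL.H86
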